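import Pool.Agent.K1H46.CP.Stm

set_option autoImplicit false

/-! # Divisors of smooth numbers (piece CP-SMO for helper46) -/

namespace Pool.Agent.K1H10.CP

open Pool.Agent.K1H46.CP

theorem smooth_div (P Q : ℕ) (hP : 1 ≤ P) (hQ : 1 ≤ Q) : ∀ (n : ℕ), Q ≤ n →
    (∀ p : ℕ, p.Prime → p ∣ n → p ≤ P) → ∃ m, m ∣ n ∧ Q ≤ m ∧ m ≤ Q * P := by
  intro n
  induction n using Nat.strong_induction_on with
  | _ n ih =>
    intro hn h
    by_cases h1 : n ≤ Q * P
    · exact ⟨n, dvd_rfl, hn, h1⟩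
    · rw [not_le] at h1
      have hn1 : n ≠ 1 := by
        rintro rfl
        have : 1 ≤ Q * P := Nat.mul_pos hQ hP
        omega
      obtain ⟨p, hp, n', rfl⟩ := Nat.exists_prime_and_dvd hn1
      have hpP := h p hp (dvd_mul_right _ _)
      have h2 : Q < n' := by
        by_contra h3
        rw [not_lt] at h3
        have : p * n' ≤ P * Q := Nat.mul_le_mul hpP h3
        rw [mul_comm P Q] at this
        omega
      have h3 : n' < p * n' := by
        have := hp.two_le
        nlinarith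
      obtain ⟨m, hm, h4, h5⟩ := ih n' h3 h2.le fun q hq hqn => h q hq (dvd_mul_of_dvd_right hqn _)
      exact ⟨m, dvd_mul_of_dvd_right hm _, h4, h5⟩

theorem t_SMO : S_SMO := by
  intro k P Q hk hP hQ h hkQ
  set r := ∏ p ∈ k.primeFactors, p with hr
  have hrsq : Squarefree r := by
    refine Finset.squarefree_prod_of_pairwise_isCoprime (fun p hp q hq hpq => ?_) fun p hp => ?_
    · rw [Function.onFun, ← Nat.coprime_iff_isRelPrime]
      exact (Nat.coprime_primes (Nat.prime_of_mem_primeFactors hp)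
        (Nat.prime_of_mem_primeFactors hq)).2 hpq
    · exact (Nat.prime_of_mem_primeFactors hp).prime.squarefree
  have hrk : r ∣ k := Nat.prod_primeFactors_dvd k
  by_cases h1 : 6 * Q ≤ r
  · left
    obtain ⟨n, hn⟩ := Nat.gcd_dvd_left r 6
    have hg0 : 0 < r.gcd 6 := Nat.gcd_pos_of_pos_right _ (by norm_num)
    have hg6 : r.gcd 6 ≤ 6 := Nat.gcd_le_right _ (by norm_num)
    have hnr : n ∣ r := ⟨r.gcd 6, by rw [mul_comm]; exact hn⟩
    have hQn : Q ≤ n := by
      by_contra h2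
      rw [not_le] at h2
      have : r.gcd 6 * n ≤ 6 * n := Nat.mul_le_mul_right _ hg6
      omega
    have hcop : n.Coprime 6 := by
      rw [Nat.coprime_iff_gcd_eq_one] 
      by_contra h2
      obtain ⟨q, hq, hqd⟩ := Nat.exists_prime_and_dvd h2
      have h3 : q ∣ n := hqd.trans (Nat.gcd_dvd_left _ _)
      have h4 : q ∣ 6 := hqd.trans (Nat.gcd_dvd_right _ _)
      have h5 : q ∣ r.gcd 6 := Nat.dvd_gcd (h3.trans hnr) h4
      have h6 : q * q ∣ r := by
        rw [hn]
        exact mul_dvd_mul h5 h3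
      have := hrsq q h6
      exact hq.one_lt.ne' (Nat.isUnit_iff.1 this)
    obtain ⟨m, hm, h2, h3⟩ := smooth_div P Q hP hQ n hQn fun p hp hpn =>
      h p hp ((hpn.trans hnr).trans hrk)
    exact ⟨m, hrsq.squarefree_of_dvd (hm.trans hnr), Nat.Coprime.coprime_dvd_left hm hcop, h2, h3,
      (hm.trans hnr).trans hrk⟩
  · right
    rw [not_le] at h1
    set t0 := ∏ p ∈ k.primeFactors, p ^ (k.factorization p / 8) with ht0
    have hkp : ∏ p ∈ k.primeFactors, p ^ (k.factorization p) = k := by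
      have := Nat.prod_factorization_pow_eq_self hk
      exact this
    have hd : t0 ^ 8 ∣ k := by
      conv_rhs => rw [← hkp]
      rw [ht0, ← Finset.prod_pow]
      refine Finset.prod_dvd_prod_of_dvd _ _ fun p _ => ?_
      rw [← pow_mul]
      exact pow_dvd_pow _ (Nat.div_mul_le_self _ _)
    have hle : k ≤ t0 ^ 8 * r ^ 7 := by
      conv_lhs => rw [← hkp]
      rw [ht0, hr, ← Finset.prod_pow, ← Finset.prod_pow, ← Finset.prod_mul_distrib]
      refine Finset.prod_le_prod' fun p hp => ?_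
      rw [← pow_mul, ← pow_add]
      exact Nat.pow_le_pow_right (Nat.prime_of_mem_primeFactors hp).pos (by omega)
    have hQt : Q ≤ t0 := by
      by_contra h2
      rw [not_le] at h2
      have h3 : t0 ^ 8 ≤ Q ^ 8 := Nat.pow_le_pow_left h2.le 8
      have h4 : r ^ 7 ≤ (6 * Q) ^ 7 := Nat.pow_le_pow_left h1.le 7
      have h5 : t0 ^ 8 * r ^ 7 ≤ Q ^ 8 * (6 * Q) ^ 7 := Nat.mul_le_mul h3 h4
      have h6 : (6 * Q) ^ 16 ≤ Q ^ 8 * (6 * Q) ^ 7 := (hkQ.trans hle).trans h5
      have h7 : (6 * Q) ^ 16 = (6 ^ 9 * Q) * (Q ^ 8 * (6 * Q) ^ 7) := by ring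
      have h8 : 0 < Q ^ 8 * (6 * Q) ^ 7 := by positivity
      rw [h7] at h6
      have h9 : 6 ^ 9 * Q ≤ 1 := by
        by_contra h10
        rw [not_le] at h10
        have := Nat.mul_lt_mul_of_pos_right h10 h8
        rw [one_mul] at this
        omega
      omega
    have ht0k : t0 ∣ k := (dvd_pow_self t0 (by norm_num)).trans hd
    obtain ⟨t, ht, h2, h3⟩ := smooth_div P Q hP hQ t0 hQt fun p hp hpn => h p hp (hpn.trans ht0k)
    exact ⟨t, h2, h3, (pow_dvd_pow_of_dvd ht 8).trans hd⟩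

end Pool.Agent.K1H10.CP
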